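import Pool.Agent.L7h12.SV.Stm

/-!
# Project SV, part NSA
-/

set_option autoImplicit false

namespace Pool.Agent.L7h25.SV

open Polynomial Set Pool.Agent.L7h12.SV

/-- the form as a polynomial -/
theorem form_eq {F : MvPolynomial (Fin 3) ℝ} {p f : ℝ[X]} (h : Hom8 F p f) :
    F = ∑ i ∈ Finset.range 9, (MvPolynomial.C (p.coeff i) * MvPolynomial.X 0 ^ i -
      MvPolynomial.C (f.coeff i) * MvPolynomial.X 1 ^ i) * MvPolynomial.X 2 ^ (8 - i) := by
  apply MvPolynomial.funext
  intro v
  have hv : v = ![v 0, v 1, v 2] := by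
    ext i
    fin_cases i <;> rfl
  rw [map_sum]
  conv_lhs => rw [hv]
  rw [h.2.2]
  refine Finset.sum_congr rfl fun i _ => ?_
  simp only [map_mul, map_sub, map_pow, MvPolynomial.eval_C, MvPolynomial.eval_X]

theorem pd0 {F : MvPolynomial (Fin 3) ℝ} {p f : ℝ[X]} (h : Hom8 F p f) (x y : ℝ) :
    MvPolynomial.eval ![x, y, 1] (MvPolynomial.pderiv 0 F) = p.derivative.eval x := by
  rw [form_eq h, map_sum, map_sum, derivative_eval, sum_over_range' _ _ 9 (by rw [h.1]; norm_num)]
  · refine Finset.sum_congr rfl fun i _ => ?_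
    rw [Derivation.leibniz, map_sub, Derivation.leibniz, Derivation.leibniz, MvPolynomial.pderiv_C,
      MvPolynomial.pderiv_C, Derivation.leibniz_pow, Derivation.leibniz_pow, Derivation.leibniz_pow,
      MvPolynomial.pderiv_X_self, MvPolynomial.pderiv_X_of_ne (by decide : (1 : Fin 3) ≠ 0),
      MvPolynomial.pderiv_X_of_ne (by decide : (2 : Fin 3) ≠ 0)]
    simp
    ring
  · intro n
    simp

theorem pd1 {F : MvPolynomial (Fin 3) ℝ} {p f : ℝ[X]} (h : Hom8 F p f) (x y : ℝ) :
    MvPolynomial.eval ![x, y, 1] (MvPolynomial.pderiv 1 F) = - f.derivative.eval y := by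
  rw [form_eq h, map_sum, map_sum, derivative_eval, sum_over_range' _ _ 9 (by rw [h.2.1]; norm_num),
    ← Finset.sum_neg_distrib]
  · refine Finset.sum_congr rfl fun i _ => ?_
    rw [Derivation.leibniz, map_sub, Derivation.leibniz, Derivation.leibniz, MvPolynomial.pderiv_C,
      MvPolynomial.pderiv_C, Derivation.leibniz_pow, Derivation.leibniz_pow, Derivation.leibniz_pow,
      MvPolynomial.pderiv_X_self, MvPolynomial.pderiv_X_of_ne (by decide : (0 : Fin 3) ≠ 1),
      MvPolynomial.pderiv_X_of_ne (by decide : (2 : Fin 3) ≠ 1)]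
    simp
    ring
  · intro n
    simp

theorem ev1 {F : MvPolynomial (Fin 3) ℝ} {p f : ℝ[X]} (h : Hom8 F p f) (x y : ℝ) :
    MvPolynomial.eval ![x, y, 1] F = p.eval x - f.eval y := by
  obtain ⟨h1, h2, h3⟩ := h
  rw [h3, eval_eq_sum_range' (n := 9) (by omega), eval_eq_sum_range' (n := 9) (by omega),
    ← Finset.sum_sub_distrib]
  refine Finset.sum_congr rfl fun i _ => ?_
  rw [one_pow, mul_one]

theorem s_NSA : S_NSA := by
  intro F p f hhom hF hns x y hxy
  by_contra hcon
  rw [not_or, not_not, not_not] at hcon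
  obtain ⟨hx, hy⟩ := hcon
  have h0 : MvPolynomial.eval ![x, y, 1] F = 0 := by rw [ev1 hF, hxy, sub_self]
  have h1 := pd0 hF x y
  have h2 := pd1 hF x y
  rw [hx] at h1
  rw [hy, neg_zero] at h2
  have h3 : MvPolynomial.eval ![x, y, 1] (MvPolynomial.pderiv 2 F) = 0 := by
    have he := congrArg (MvPolynomial.eval ![x, y, 1]) hhom.sum_X_mul_pderiv
    rw [map_sum, Fin.sum_univ_three, map_mul, map_mul, map_mul, h1, h2, map_nsmul, h0, MvPolynomial.eval_X,
      MvPolynomial.eval_X, MvPolynomial.eval_X] at he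
    simpa using he
  have hall : ∀ i, MvPolynomial.eval ![x, y, 1] (MvPolynomial.pderiv i F) = 0 := by
    intro i
    fin_cases i
    · exact h1
    · exact h2
    · exact h3
  have key : ∀ P : MvPolynomial (Fin 3) ℝ, MvPolynomial.eval ![x, y, 1] P = 0 →
      MvPolynomial.aeval (algebraMap ℝ ℂ ∘ ![x, y, 1]) P = 0 := by
    intro P hP
    rw [MvPolynomial.aeval_algebraMap_apply]
    have e1 : MvPolynomial.aeval ![x, y, 1] P = MvPolynomial.eval ![x, y, 1] P := by
      rw [MvPolynomial.aeval_def, MvPolynomial.eval, MvPolynomial.coe_eval₂Hom]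
      rfl
    rw [e1, hP, map_zero]
  refine hns (algebraMap ℝ ℂ ∘ ![x, y, 1]) ?_ ⟨key F h0, fun i => key _ (hall i)⟩
  intro h
  have := congrFun h 2
  simp at this

end Pool.Agent.L7h25.SV
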