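import Pool.Agent.L7h12.SV.Stm

/-!
# Project SV, part PIE
-/

set_option autoImplicit false

namespace Pool.Agent.L7h25.SV

open Polynomial Set Pool.Agent.L7h12.SV

theorem eval_one {F : MvPolynomial (Fin 3) ℝ} {p f : ℝ[X]} (h : Hom8 F p f) (x y : ℝ) :
    MvPolynomial.eval ![x, y, 1] F = p.eval x - f.eval y := by
  obtain ⟨h1, h2, h3⟩ := h
  rw [h3, eval_eq_sum_range' (n := 9) (by omega), eval_eq_sum_range' (n := 9) (by omega),
    ← Finset.sum_sub_distrib]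
  refine Finset.sum_congr rfl fun i _ => ?_
  rw [one_pow, mul_one]

theorem s_PIE : S_PIE := by
  classical
  intro k F C p f hF hC
  have hφ : Continuous (fun w : ℝ × ℝ => (![w.1, w.2, 1] : Fin 3 → ℝ)) := by
    refine continuous_pi fun i => ?_
    fin_cases i
    · exact continuous_fst
    · exact continuous_snd
    · exact continuous_const
  have hφ0 : ∀ w : ℝ × ℝ, (![w.1, w.2, 1] : Fin 3 → ℝ) ≠ 0 := by
    intro w h
    exact one_ne_zero (congrFun h 2)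
  have hcl : ∀ i, IsClosed (aff (C i)) := by
    intro i
    obtain ⟨K, hK, hCK⟩ := hC.closed i
    have : aff (C i) = (fun w : ℝ × ℝ => (![w.1, w.2, 1] : Fin 3 → ℝ)) ⁻¹' K := by
      ext w
      show ![w.1, w.2, 1] ∈ C i ↔ ![w.1, w.2, 1] ∈ K
      rw [hCK]
      exact ⟨fun h => h.1, fun h => ⟨h, hφ0 w⟩⟩
    rw [this]
    exact hK.preimage hφ
  have hZ : ∀ w : ℝ × ℝ, w ∈ Z p f ↔ ∃ i, w ∈ aff (C i) := by
    intro w
    have h1 : w ∈ Z p f ↔ ![w.1, w.2, 1] ∈ Pool.Agent.L7h17.OC.realCone F := by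
      show p.eval w.1 = f.eval w.2 ↔ ![w.1, w.2, 1] ≠ 0 ∧ MvPolynomial.eval ![w.1, w.2, 1] F = 0
      rw [eval_one hF, sub_eq_zero]
      exact ⟨fun h => ⟨hφ0 w, h⟩, fun h => h.2⟩
    rw [h1, ← hC.cov, mem_iUnion]
    rfl
  have hdis : ∀ i j, i ≠ j → Disjoint (aff (C i)) (aff (C j)) := by
    intro i j hij
    rw [Set.disjoint_left]
    intro w h1 h2
    exact Set.disjoint_left.1 (hC.disj i j hij) h1 h2
  refine ⟨fun i => ⟨fun w hw => (hZ w).2 ⟨i, hw⟩, hcl i, ?_⟩, hdis⟩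
  have : Z p f \ aff (C i) = ⋃ j ∈ {j : Fin k | j ≠ i}, aff (C j) := by
    ext w
    rw [mem_iUnion₂]
    constructor
    · rintro ⟨h1, h2⟩
      obtain ⟨j, hj⟩ := (hZ w).1 h1
      exact ⟨j, fun h => h2 (h ▸ hj), hj⟩
    · rintro ⟨j, hj, hw⟩
      exact ⟨(hZ w).2 ⟨j, hw⟩, fun h => Set.disjoint_left.1 (hdis j i hj) hw h⟩
  rw [this]
  exact (Set.toFinite _).isClosed_biUnion fun j _ => hcl j

end Pool.Agent.L7h25.SV
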